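import Pool.Agent.Q140.DIC.Line

/-!
# Affine subspaces and computations of noncommutative polynomials
-/

set_option autoImplicit false

namespace Pool.Agent.Q140.DIC

open Pool.Agent.W966.Vg Pool.Agent.Q140.LIN Pool.Agent.H515R2.MMR Polynomial
  Pool.Agent.Q140.VFY Pool.Agent.Q140.HYP Pool.Agent.Q140.EQN

section affine

variable {K ι : Type} [Field K] [Fintype ι]

lemma isAff_linear (φ : (ι → K) →ₗ[K] K) (a : ι → K) : IsAff fun x => φ (x - a) := by
  classical
  refine ⟨- φ a, fun i => φ (Pi.single i 1), fun x => ?_⟩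
  show φ (x - a) = - φ a + ∑ i, φ (Pi.single i 1) * x i
  rw [map_sub]
  have h : φ x = ∑ i, φ (Pi.single i 1) * x i := by
    conv_lhs => rw [← Finset.univ_sum_single x]
    rw [map_sum]
    refine Finset.sum_congr rfl fun i _ => ?_
    have h1 : (Pi.single i (x i) : ι → K) = x i • Pi.single i 1 := by
      rw [← Pi.single_smul, smul_eq_mul, mul_one]
    rw [h1, map_smul, smul_eq_mul, mul_comm]
  rw [h]
  ring

/-- **Affine subspaces are decided without multiplications.** -/
theorem affine_tree (h2 : (2 : K) ≠ 0) (S : Set (ι → K))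
    (hS : ∀ a ∈ S, ∀ b ∈ S, ∀ t : K, a + t • (b - a) ∈ S) :
    ∃ T : NTree K ι, Det T ∧ cost T = 0 ∧ ∀ x, T.Accepts x 0 ↔ x ∈ S := by
  rcases S.eq_empty_or_nonempty with rfl | ⟨a, ha⟩
  · exact ⟨.reject, trivial, rfl, fun x => Iff.rfl⟩
  · let V : Submodule K (ι → K) :=
      { carrier := {v | a + v ∈ S}
        zero_mem' := by simpa using ha
        add_mem' := by
          intro v w hv hw
          have hv' := hS a ha _ hv 2
          have hw' := hS a ha _ hw 2
          have h := hS _ hv' _ hw' (2 : K)⁻¹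
          show a + (v + w) ∈ S
          convert h using 1
          ext i
          simp only [Pi.add_apply, Pi.sub_apply, Pi.smul_apply, smul_eq_mul]
          field_simp
          ring
        smul_mem' := by
          intro c v hv
          have h := hS a ha _ hv c
          simpa using h }
    let d := Module.finrank K ((ι → K) ⧸ V)
    let B := Module.finBasis K ((ι → K) ⧸ V)
    obtain ⟨T, h3, h4, h5⟩ := (Cm.aff (K := K) (ι := ι) (V := Fin d)
      (F := fun i x => ((B.coord i).comp V.mkQ) (x - a)) fun i => isAff_linear _ a).tree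
    refine ⟨T, h3, h4, fun x => ?_⟩
    rw [h5]
    have h6 : x ∈ S ↔ x - a ∈ V := by
      show _ ↔ a + (x - a) ∈ S
      rw [add_sub_cancel]
    rw [h6, ← Submodule.Quotient.mk_eq_zero, ← B.forall_coord_eq_zero_iff]
    rfl

end affine

section par

variable {K ι V W : Type} [Field K] [Fintype ι]

/-- the linear combination of the results with shifted indices -/
def sh (M : ℕ) (f : LF K ι) : LF K ι := ⟨f.c, f.x, fun s => if s < M then 0 else f.r (s - M)⟩

lemma sh_val (M : ℕ) (f : LF K ι) (x : ι → K) (r : ℕ) (G G' : ℕ → K)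
    (h : ∀ s < r, G' (M + s) = G s) : (sh M f).val x (M + r) G' = f.val x r G := by
  unfold LF.val sh
  congr 1
  rw [Finset.sum_range_add]
  have h1 : ∑ s ∈ Finset.range M, algebraMap K K (if s < M then 0 else f.r (s - M)) * G' s = 0 :=
    Finset.sum_eq_zero fun s hs => by
      rw [if_pos (Finset.mem_range.mp hs), map_zero, zero_mul]
  rw [h1, zero_add]
  refine Finset.sum_congr rfl fun s hs => ?_
  show algebraMap K K (if M + s < M then 0 else f.r (M + s - M)) * G' (M + s) = _
  rw [if_neg (by omega), Nat.add_sub_cancel_left, h s (Finset.mem_range.mp hs)]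

/-- Two computations, one after the other. -/
lemma cm_par {M₁ M₂ : ℕ} {F : V → (ι → K) → K} {F' : W → (ι → K) → K} (h₁ : Cm M₁ F)
    (h₂ : Cm M₂ F') : Cm (M₁ + M₂) (Sum.elim F F') := by
  obtain ⟨a, b, o, H⟩ := h₁
  obtain ⟨a', b', o', H'⟩ := h₂
  refine ⟨fun r => if r < M₁ then a r else sh M₁ (a' (r - M₁)),
    fun r => if r < M₁ then b r else sh M₁ (b' (r - M₁)),
    Sum.elim (fun v => tr M₁ (o v)) fun w => sh M₁ (o' w), fun x => ?_⟩
  obtain ⟨G, h1, h2⟩ := H x
  obtain ⟨G', h1', h2'⟩ := H' x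
  let G'' : ℕ → K := fun s => if s < M₁ then G s else G' (s - M₁)
  have e1 : ∀ s < M₁, G'' s = G s := fun s hs => if_pos hs
  have e2 : ∀ s, G'' (M₁ + s) = G' s := fun s => by
    show (if M₁ + s < M₁ then G (M₁ + s) else G' (M₁ + s - M₁)) = _
    rw [if_neg (by omega), Nat.add_sub_cancel_left]
  refine ⟨G'', fun r hr => ?_, ?_⟩
  · by_cases hrM : r < M₁
    · simp only [if_pos hrM]
      rw [e1 r hrM, h1 r hrM, Pool.Agent.W966.Vg.LF.val_congr (a r) x fun s hs =>
        (e1 s (lt_trans hs hrM)), Pool.Agent.W966.Vg.LF.val_congr (b r) x fun s hs =>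
        (e1 s (lt_trans hs hrM))]
    · simp only [if_neg hrM]
      obtain ⟨r', rfl⟩ : ∃ r', r = M₁ + r' := ⟨r - M₁, by omega⟩
      rw [Nat.add_sub_cancel_left, e2, sh_val M₁ _ x r' G' G'' fun s _ => e2 s,
        sh_val M₁ _ x r' G' G'' fun s _ => e2 s]
      exact h1' r' (by omega)
  · rintro (v | w)
    · exact (tr_val M₁ _ x (Nat.le_add_right M₁ M₂) G G'' e1).trans (h2 v)
    · exact (sh_val M₁ _ x M₂ G' G'' fun s _ => e2 s).trans (h2' w)

/-- Many computations. -/
lemma cm_pi {s : ℕ} (M : Fin s → ℕ) (F : Fin s → V → (ι → K) → K) (h : ∀ j, Cm (M j) (F j)) :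
    Cm (∑ j, M j) fun (p : Fin s × V) => F p.1 p.2 := by
  induction s with
  | zero => exact Cm.aff fun p => p.1.elim0
  | succ s ih =>
    rw [Fin.sum_univ_succ]
    refine ((cm_par (h 0) (ih (fun j => M j.succ) (fun j => F j.succ) fun j => h j.succ)).sub
      (fun p : Fin (s + 1) × V => Fin.cases (motive := fun _ => V ⊕ (Fin s × V)) (Sum.inl p.2)
        (fun j => Sum.inr (j, p.2)) p.1)).congr fun p x => ?_
    obtain ⟨j, v⟩ := p
    refine Fin.cases ?_ (fun j => ?_) j
    · rfl
    · rfl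

end par

section mul

variable {ι : Type} [Fintype ι] {N : ℕ}

/-- The product of two computed matrices. -/
lemma cm_mul2 {r M₁ M₂ : ℕ} (hr : HasRank N r) {F G : (ι → ℂ) → Matrix (Fin N) (Fin N) ℂ}
    (h₁ : Cm M₁ fun p : Fin N × Fin N => fun x => F x p.1 p.2)
    (h₂ : Cm M₂ fun p : Fin N × Fin N => fun x => G x p.1 p.2) :
    Cm (M₁ + M₂ + r) fun (p : Fin N × Fin N) x => (F x * G x) p.1 p.2 := by
  classical
  obtain ⟨α, β, γ, hm⟩ := mul_entry hr
  have h := cm_par h₁ h₂
  have h1 : Cm (M₁ + M₂) (Sum.elim (fun (t : Fin r) (x : ι → ℂ) => ∑ p, ∑ q, α t p q * F x p q)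
      fun (t : Fin r) x => ∑ p, ∑ q, β t p q * G x p q) := by
    refine (h.lin (W := Fin r ⊕ Fin r) (fun _ _ => 0) (fun _ => IsAff.const 0)
      (Sum.elim (fun t => Sum.elim (fun p => α t p.1 p.2) 0)
        fun t => Sum.elim 0 fun p => β t p.1 p.2)).congr fun t x => ?_
    rcases t with t | t
    · simp only [Sum.elim_inl, Fintype.sum_sum_type, Sum.elim_inr, Pi.zero_apply, zero_mul,
        Finset.sum_const_zero, add_zero, zero_add, Fintype.sum_prod_type]
    · simp only [Sum.elim_inl, Fintype.sum_sum_type, Sum.elim_inr, Pi.zero_apply, zero_mul,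
        Finset.sum_const_zero, zero_add, Fintype.sum_prod_type]
  have h2 := h1.prod (m := r) (fun t => Sum.inl t) (fun t => Sum.inr t)
  refine (h2.lin (W := Fin N × Fin N) (fun p _ => 0) (fun p => IsAff.const _)
    (fun p => Sum.elim (fun _ => 0) fun t => γ t p.2 p.1)).congr fun p x => ?_
  simp only [Fintype.sum_sum_type, Sum.elim_inl, Sum.elim_inr, zero_mul, Finset.sum_const_zero,
    zero_add]
  rw [hm]

/-- The sum of two computed matrices. -/
lemma cm_add2 {M₁ M₂ : ℕ} {F G : (ι → ℂ) → Matrix (Fin N) (Fin N) ℂ}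
    (h₁ : Cm M₁ fun p : Fin N × Fin N => fun x => F x p.1 p.2)
    (h₂ : Cm M₂ fun p : Fin N × Fin N => fun x => G x p.1 p.2) :
    Cm (M₁ + M₂) fun (p : Fin N × Fin N) x => (F x + G x) p.1 p.2 := by
  classical
  refine ((cm_par h₁ h₂).lin (W := Fin N × Fin N) (fun _ _ => 0) (fun _ => IsAff.const 0)
    fun p => Sum.elim (Pi.single p 1) (Pi.single p 1)).congr fun p x => ?_
  simp only [Fintype.sum_sum_type, Sum.elim_inl, Sum.elim_inr, zero_add, Matrix.add_apply]
  congr 1
  · rw [Finset.sum_eq_single p (fun q _ hq => by rw [Pi.single_eq_of_ne hq, zero_mul])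
      fun hp => absurd (Finset.mem_univ p) hp, Pi.single_eq_same, one_mul]
  · rw [Finset.sum_eq_single p (fun q _ hq => by rw [Pi.single_eq_of_ne hq, zero_mul])
      fun hp => absurd (Finset.mem_univ p) hp, Pi.single_eq_same, one_mul]

/-- **Noncommutative polynomials.** -/
theorem free_cm {m : ℕ} (f : FreeAlgebra ℂ (Fin m)) : ∃ C : ℕ, ∀ N : ℕ,
    Cm (C * rk N) fun (p : Fin N × Fin N) (x : Fin m × Fin N × Fin N → ℂ) =>
      (FreeAlgebra.lift ℂ (mat x) f) p.1 p.2 := by
  induction f using FreeAlgebra.induction with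
  | grade0 c =>
    refine ⟨0, fun N => ?_⟩
    rw [zero_mul]
    refine Cm.aff fun p => ?_
    simp only [AlgHom.commutes]
    exact IsAff.const _
  | grade1 i =>
    refine ⟨0, fun N => ?_⟩
    rw [zero_mul]
    refine Cm.aff fun p => ?_
    simp only [FreeAlgebra.lift_ι_apply]
    exact IsAff.coord _
  | mul f g hf hg =>
    obtain ⟨C₁, h1⟩ := hf
    obtain ⟨C₂, h2⟩ := hg
    refine ⟨C₁ + C₂ + 1, fun N => ?_⟩
    have h3 := cm_mul2 (hasRank_rk N) (h1 N) (h2 N)
    simp only [map_mul]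
    rw [add_mul, add_mul, one_mul]
    exact h3
  | add f g hf hg =>
    obtain ⟨C₁, h1⟩ := hf
    obtain ⟨C₂, h2⟩ := hg
    refine ⟨C₁ + C₂, fun N => ?_⟩
    have h3 := cm_add2 (h1 N) (h2 N)
    simp only [map_add]
    rw [add_mul]
    exact h3

/-- **Deterministic trees for noncommutative polynomial equations.** -/
theorem sol_upper {m s : ℕ} (F : Fin s → FreeAlgebra ℂ (Fin m)) : ∃ C : ℕ, ∀ N : ℕ,
    ∃ T : NTree ℂ (Fin m × Fin N × Fin N), Det T ∧ cost T = C * rk N ∧
      ∀ x, T.Accepts x (C * rk N) ↔ Sol F (mat x) := by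
  choose C hC using fun j => free_cm (F j)
  refine ⟨∑ j, C j, fun N => ?_⟩
  obtain ⟨T, h1, h2, h3⟩ := (cm_pi _ _ fun j => hC j N).tree
  rw [← Finset.sum_mul] at h2 h3
  refine ⟨T, h1, h2, fun x => ?_⟩
  rw [h3]
  constructor
  · intro h j
    ext p q
    exact h (j, p, q)
  · intro h v
    rw [h v.1]
    rfl

end mul

end Pool.Agent.Q140.DIC
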