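import Pool.Agent.Q140.EQN.Expo

/-!
# Noncommutative polynomial equations: lines through two solutions
-/

set_option autoImplicit false

namespace Pool.Agent.Q140.DIC

open Pool.Agent.W966.Vg Pool.Agent.Q140.LIN Pool.Agent.H515R2.MMR Polynomial
  Pool.Agent.Q140.VFY Pool.Agent.Q140.HYP Pool.Agent.Q140.EQN

section defs

variable {K : Type} [Field K] {m s : ℕ} {A B : Type} [Ring A] [Algebra K A] [Ring B] [Algebra K B]

/-- The elements `X 0, …, X (m - 1)` of the algebra `A` satisfy the equations `F j = 0`. -/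
def Sol (F : Fin s → FreeAlgebra K (Fin m)) (X : Fin m → A) : Prop :=
  ∀ j, FreeAlgebra.lift K X (F j) = 0

lemma lift_map (φ : A →ₐ[K] B) (X : Fin m → A) (f : FreeAlgebra K (Fin m)) :
    FreeAlgebra.lift K (fun i => φ (X i)) f = φ (FreeAlgebra.lift K X f) := by
  have h : FreeAlgebra.lift K (fun i => φ (X i)) = φ.comp (FreeAlgebra.lift K X) := by
    apply FreeAlgebra.hom_ext
    funext i
    simp
  rw [h]
  rfl

end defs

section line

variable {K : Type} [Field K] {m s k : ℕ}

/-- the line through `a` with direction `c` as a matrix with polynomial entries -/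
noncomputable def ln (a c : Matrix (Fin k) (Fin k) K) : Matrix (Fin k) (Fin k) K[X] :=
  Matrix.of fun u v => C (a u v) + C (c u v) * X

/-- substitution of a matrix for the variable -/
noncomputable def Phi {N : ℕ} (E : Matrix (Fin N) (Fin N) K) :
    Matrix (Fin k) (Fin k) K[X] →ₐ[K] Matrix (Fin (k * N)) (Fin (k * N)) K :=
  ((Matrix.reindexAlgEquiv K K finProdFinEquiv).toAlgHom.comp
    (Matrix.compAlgEquiv (Fin k) (Fin N) K K).toAlgHom).comp (aeval E : K[X] →ₐ[K] _).mapMatrix

lemma Phi_apply {N : ℕ} (E : Matrix (Fin N) (Fin N) K) (M : Matrix (Fin k) (Fin k) K[X])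
    (p q : Fin (k * N)) : Phi E M p q = aeval E (M (finProdFinEquiv.symm p).1
      (finProdFinEquiv.symm q).1) (finProdFinEquiv.symm p).2 (finProdFinEquiv.symm q).2 := rfl

lemma Phi_eq_zero {N : ℕ} (E : Matrix (Fin N) (Fin N) K) (M : Matrix (Fin k) (Fin k) K[X]) :
    Phi E M = 0 ↔ ∀ u v, aeval E (M u v) = 0 := by
  constructor
  · intro h u v
    ext p q
    have h1 := congrFun (congrFun h (finProdFinEquiv (u, p))) (finProdFinEquiv (v, q))
    rw [Phi_apply, Equiv.symm_apply_apply, Equiv.symm_apply_apply] at h1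
    exact h1
  · intro h
    ext p q
    rw [Phi_apply, h]
    rfl

lemma ln_eval (a c : Matrix (Fin k) (Fin k) K) (t : K) :
    (aeval t : K[X] →ₐ[K] K).mapMatrix (ln a c) = a + t • c := by
  ext u v
  simp only [ln, AlgHom.mapMatrix_apply, Matrix.map_apply, Matrix.of_apply, Matrix.add_apply,
    Matrix.smul_apply, smul_eq_mul, map_add, map_mul, aeval_C, aeval_X, Algebra.algebraMap_self,
    RingHom.id_apply]
  rw [mul_comm]

/-- the equations on the line -/
noncomputable def PP (F : Fin s → FreeAlgebra K (Fin m)) (a c : Fin m → Matrix (Fin k) (Fin k) K)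
    (j : Fin s) : Matrix (Fin k) (Fin k) K[X] :=
  FreeAlgebra.lift K (fun i => ln (a i) (c i)) (F j)

lemma PP_eval (F : Fin s → FreeAlgebra K (Fin m)) (a c : Fin m → Matrix (Fin k) (Fin k) K)
    (j : Fin s) (t : K) : (aeval t : K[X] →ₐ[K] K).mapMatrix (PP F a c j) =
      FreeAlgebra.lift K (fun i => a i + t • c i) (F j) := by
  unfold PP
  rw [← lift_map]
  simp only [ln_eval]

/-- the ideal of the equations on the line -/
noncomputable def II (F : Fin s → FreeAlgebra K (Fin m)) (a c : Fin m → Matrix (Fin k) (Fin k) K) :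
    Ideal K[X] :=
  Ideal.span (Set.range fun x : Fin s × Fin k × Fin k => PP F a c x.1 x.2.1 x.2.2)

/-- the greatest common divisor of the equations on the line -/
noncomputable def gg (F : Fin s → FreeAlgebra K (Fin m)) (a c : Fin m → Matrix (Fin k) (Fin k) K) :
    K[X] := Submodule.IsPrincipal.generator (II F a c)

lemma gg_zero_iff {A : Type} [Ring A] [Algebra K A] (F : Fin s → FreeAlgebra K (Fin m))
    (a c : Fin m → Matrix (Fin k) (Fin k) K) (E : A) :
    aeval E (gg F a c) = 0 ↔ ∀ j u v, aeval E (PP F a c j u v) = 0 := by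
  have h1 : Ideal.span {gg F a c} = II F a c := Ideal.span_singleton_generator _
  have h2 : aeval E (gg F a c) = 0 ↔ Ideal.span {gg F a c} ≤ RingHom.ker (aeval E : K[X] →ₐ[K] A) := by
    rw [Ideal.span_le, Set.singleton_subset_iff]
    rfl
  rw [h2, h1, II, Ideal.span_le]
  constructor
  · intro h j u v
    exact h ⟨(j, u, v), rfl⟩
  · rintro h _ ⟨⟨j, u, v⟩, rfl⟩
    exact h j u v

lemma sol_line {N : ℕ} (F : Fin s → FreeAlgebra K (Fin m))
    (a c : Fin m → Matrix (Fin k) (Fin k) K) (E : Matrix (Fin N) (Fin N) K) :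
    Sol F (fun i => Phi E (ln (a i) (c i))) ↔ aeval E (gg F a c) = 0 := by
  rw [gg_zero_iff]
  unfold Sol
  simp only [lift_map]
  refine forall_congr' fun j => ?_
  exact Phi_eq_zero E _

lemma sol_point (F : Fin s → FreeAlgebra K (Fin m)) (a c : Fin m → Matrix (Fin k) (Fin k) K)
    (t : K) : Sol F (fun i => a i + t • c i) ↔ (gg F a c).eval t = 0 := by
  have h := gg_zero_iff F a c t
  rw [Polynomial.coe_aeval_eq_eval] at h
  rw [h]
  unfold Sol
  refine forall_congr' fun j => ?_
  rw [← PP_eval]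
  constructor
  · intro h u v
    exact congrFun (congrFun h u) v
  · intro h
    ext u v
    exact h u v

lemma gg_degree (F : Fin s → FreeAlgebra K (Fin m)) (a c : Fin m → Matrix (Fin k) (Fin k) K)
    (h0 : Sol F a) (h1 : Sol F (fun i => a i + c i)) {t : K}
    (ht : ¬ Sol F (fun i => a i + t • c i)) : 2 ≤ (gg F a c).natDegree := by
  have e0 : (gg F a c).eval 0 = 0 := (sol_point F a c 0).mp (by simpa using h0)
  have e1 : (gg F a c).eval 1 = 0 := (sol_point F a c 1).mp (by simpa using h1)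
  have hne : gg F a c ≠ 0 := by
    intro h
    apply ht
    rw [sol_point, h, eval_zero]
  obtain ⟨r, hr⟩ := Polynomial.dvd_iff_isRoot.mpr e0
  have hr0 : r ≠ 0 := by rintro rfl; exact hne (by rw [hr, mul_zero])
  have e2 : r.eval 1 = 0 := by
    rw [hr, eval_mul, eval_sub, eval_X, eval_C, sub_zero, one_mul] at e1
    exact e1
  obtain ⟨r', hr'⟩ := Polynomial.dvd_iff_isRoot.mpr e2
  have hr0' : r' ≠ 0 := by rintro rfl; exact hr0 (by rw [hr', mul_zero])
  rw [hr, hr', Polynomial.natDegree_mul (Polynomial.X_sub_C_ne_zero 0)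
    (mul_ne_zero (Polynomial.X_sub_C_ne_zero 1) hr0'), Polynomial.natDegree_mul
    (Polynomial.X_sub_C_ne_zero 1) hr0', Polynomial.natDegree_X_sub_C,
    Polynomial.natDegree_X_sub_C]
  omega

lemma aff_phi {N : ℕ} (a c : Matrix (Fin k) (Fin k) K) (p q : Fin (k * N)) :
    IsAff fun y : Fin N × Fin N → K => Phi (one y) (ln a c) p q := by
  have h : (fun y : Fin N × Fin N → K => Phi (one y) (ln a c) p q) = fun y =>
      a (finProdFinEquiv.symm p).1 (finProdFinEquiv.symm q).1 *
        (1 : Matrix (Fin N) (Fin N) K) (finProdFinEquiv.symm p).2 (finProdFinEquiv.symm q).2 +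
      c (finProdFinEquiv.symm p).1 (finProdFinEquiv.symm q).1 *
        one y (finProdFinEquiv.symm p).2 (finProdFinEquiv.symm q).2 := by
    funext y
    rw [Phi_apply, ln, Matrix.of_apply, map_add, map_mul, aeval_C, aeval_C, aeval_X,
      Algebra.algebraMap_eq_smul_one, Algebra.algebraMap_eq_smul_one, smul_mul_assoc, one_mul]
    rfl
  rw [h]
  exact (IsAff.const _).add ((aff_one' _ _).smul _)

/-- **Lines through two solutions.** -/
theorem line_lower [IsAlgClosed K] [CharZero K] (F : Fin s → FreeAlgebra K (Fin m))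
    (a c : Fin m → Matrix (Fin k) (Fin k) K) (h0 : Sol F a) (h1 : Sol F (fun i => a i + c i))
    {t : K} (ht : ¬ Sol F (fun i => a i + t • c i)) (N n : ℕ) (hn : 0 < n)
    (hN : 2 * (gg F a c).natDegree * n ≤ N)
    (T : NTree K (Fin m × Fin (k * N) × Fin (k * N))) (L : ℕ)
    (hT : ∀ x, T.Accepts x L ↔ Sol F (mat x)) : (n : ℝ) ^ omega ≤ 2 * L := by
  choose c' u hu using fun x : Fin m × Fin (k * N) × Fin (k * N) =>
    aff_phi (N := N) (a x.1) (c x.1) x.2.1 x.2.2
  let φ : Fin m × Fin (k * N) × Fin (k * N) → K × (Fin N × Fin N → K) := fun x => (c' x, u x)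
  have hφ : ∀ y, app φ y = fun x => Phi (one y) (ln (a x.1) (c x.1)) x.2.1 x.2.2 :=
    fun y => funext fun x => (hu x y).symm
  refine poly_lower (gg F a c) (gg_degree F a c h0 h1 ht) hn hN (subT φ T) L fun y => ?_
  rw [subT_accepts, hφ, hT, ← sol_line]
  rfl

end line

end Pool.Agent.Q140.DIC
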