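import Pool.Agent.Q140.DIC.Affine

/-!
# The dichotomy for noncommutative polynomial equations
-/

set_option autoImplicit false

namespace Pool.Agent.Q140.DIC

open Pool.Agent.W966.Vg Pool.Agent.Q140.LIN Pool.Agent.H515R2.MMR Polynomial
  Pool.Agent.Q140.VFY Pool.Agent.Q140.HYP Pool.Agent.Q140.EQN

/-- For every `N` the set of the solutions in `N × N` matrices is empty or an affine subspace:
it contains with two solutions the line through them. -/
def AffineSol {K : Type} [Field K] {m s : ℕ} (F : Fin s → FreeAlgebra K (Fin m)) : Prop :=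
  ∀ (N : ℕ) (X Y : Fin m → Matrix (Fin N) (Fin N) K), Sol F X → Sol F Y → ∀ t : K,
    Sol F fun i => X i + t • (Y i - X i)

lemma mat_line {K : Type} [Field K] {m N : ℕ} (x y : Fin m × Fin N × Fin N → K) (t : K) :
    mat (x + t • (y - x)) = fun i => mat x i + t • (mat y i - mat x i) := by
  funext i
  ext p q
  rfl

/-- **Affine solution sets.** -/
theorem affine_case {K : Type} [Field K] (h2 : (2 : K) ≠ 0) {m s : ℕ}
    (F : Fin s → FreeAlgebra K (Fin m)) (h : AffineSol F) (N : ℕ) :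
    ∃ T : NTree K (Fin m × Fin N × Fin N), Det T ∧ cost T = 0 ∧
      ∀ x, T.Accepts x 0 ↔ Sol F (mat x) := by
  refine affine_tree h2 {x | Sol F (mat x)} fun x hx y hy t => ?_
  show Sol F (mat _)
  rw [mat_line]
  exact h N _ _ hx hy t

/-- **All other cases.** -/
theorem hard_case {K : Type} [Field K] [IsAlgClosed K] [CharZero K] {m s : ℕ}
    (F : Fin s → FreeAlgebra K (Fin m)) (h : ¬ AffineSol F) : ∃ k d : ℕ, 0 < k ∧ 0 < d ∧
      ∀ n N : ℕ, 0 < n → d * n ≤ N → ∀ (T : NTree K (Fin m × Fin (k * N) × Fin (k * N))) (L : ℕ),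
        (∀ x, T.Accepts x L ↔ Sol F (mat x)) → (n : ℝ) ^ omega ≤ 2 * L := by
  unfold AffineSol at h
  push Not at h
  obtain ⟨k, X, Y, hX, hY, t, ht⟩ := h
  have hY' : Sol F fun i => X i + (Y i - X i) := by
    have : (fun i => X i + (Y i - X i)) = Y := by funext i; rw [add_sub_cancel]
    rw [this]; exact hY
  have hd := gg_degree F X (fun i => Y i - X i) hX hY' ht
  have hk : 0 < k := by
    rcases Nat.eq_zero_or_pos k with rfl | hk
    · exact absurd (fun j => Matrix.ext fun p => p.elim0) ht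
    · exact hk
  exact ⟨k, 2 * (gg F X fun i => Y i - X i).natDegree, hk, by omega, fun n N hn hN T L hT =>
    line_lower F X (fun i => Y i - X i) hX hY' ht N n hn hN T L hT⟩

theorem expo_eq'' {κ : ℕ → Type} [∀ N, Fintype (κ N)] (S : ∀ N, Set (κ N → ℂ)) (d c : ℕ)
    (lower : ∀ n : ℕ, 0 < n → ∀ (t : NTree ℂ (κ (d * n))) (L : ℕ),
      (∀ x, t.Accepts x L ↔ x ∈ S (d * n)) → (n : ℝ) ^ omega ≤ 2 * L)
    (upper : ∀ N, ∃ (L : ℕ) (t : NTree ℂ (κ N)), (∀ x, t.Accepts x L ↔ x ∈ S N) ∧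
      L ≤ c * rk N) :
    expo S = omega := by
  have hsub : {τ : ℝ | ∃ C : ℝ, ∀ n : ℕ, (rk n : ℝ) ≤ C * (n : ℝ) ^ τ} ⊆
      {τ : ℝ | ∃ c : ℝ, ∀ N : ℕ, ∃ (L : ℕ) (t : NTree ℂ (κ N)),
        (∀ x, t.Accepts x L ↔ x ∈ S N) ∧ (L : ℝ) ≤ c * (N : ℝ) ^ τ} := by
    rintro τ ⟨C, hC⟩
    refine ⟨c * C, fun n => ?_⟩
    obtain ⟨L, t, ht, hL⟩ := upper n
    refine ⟨L, t, ht, ?_⟩
    have h1 : (L : ℝ) ≤ c * rk n := by exact_mod_cast hL
    calc (L : ℝ) ≤ c * rk n := h1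
      _ ≤ c * (C * (n : ℝ) ^ τ) := mul_le_mul_of_nonneg_left (hC n) (Nat.cast_nonneg c)
      _ = _ := by ring
  have hlow : ∀ τ ∈ {τ : ℝ | ∃ c : ℝ, ∀ N : ℕ, ∃ (L : ℕ) (t : NTree ℂ (κ N)),
      (∀ x, t.Accepts x L ↔ x ∈ S N) ∧ (L : ℝ) ≤ c * (N : ℝ) ^ τ}, omega ≤ τ := by
    rintro τ ⟨c, hc⟩
    have key : ∀ n : ℕ, 0 < n → (n : ℝ) ^ omega ≤ 2 * c * (d : ℝ) ^ τ * (n : ℝ) ^ τ + 0 := by
      intro n hn
      obtain ⟨L, t, h1, h2⟩ := hc (d * n)
      have h3 := lower n hn t L h1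
      rw [Nat.cast_mul, Real.mul_rpow (Nat.cast_nonneg d) (Nat.cast_nonneg n)] at h2
      calc (n : ℝ) ^ omega ≤ 2 * L := h3
        _ ≤ 2 * (c * ((d : ℝ) ^ τ * (n : ℝ) ^ τ)) := by linarith
        _ = _ := by ring
    rcases le_or_gt 0 τ with hτ | hτ
    · exact omega_le_of_bound hτ fun N => ⟨N + 1, Nat.le_succ N, key (N + 1) (Nat.succ_pos N)⟩
    · have h0 : omega ≤ 0 := omega_le_of_bound le_rfl (c₁ := |2 * c * (d : ℝ) ^ τ|) (c₂ := 0)
        fun N => by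
        refine ⟨N + 1, Nat.le_succ N, (key (N + 1) (Nat.succ_pos N)).trans ?_⟩
        have h1 : (1 : ℝ) ≤ ((N + 1 : ℕ) : ℝ) := by exact_mod_cast Nat.succ_pos N
        have h2 : (((N + 1 : ℕ) : ℝ)) ^ τ ≤ 1 := Real.rpow_le_one_of_one_le_of_nonpos h1 hτ.le
        have h3 : 0 ≤ (((N + 1 : ℕ) : ℝ)) ^ τ := by positivity
        rw [Real.rpow_zero]
        have h4 : 2 * c * (d : ℝ) ^ τ * (((N + 1 : ℕ) : ℝ)) ^ τ ≤ |2 * c * (d : ℝ) ^ τ| * 1 :=
          (mul_le_mul_of_nonneg_right (le_abs_self _) h3).trans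
            (mul_le_mul_of_nonneg_left h2 (abs_nonneg _))
        linarith
      have := Pool.Agent.Y538.Par.two_le_omega
      linarith
  refine le_antisymm ?_ ?_
  · exact csInf_le_csInf ⟨omega, hlow⟩ omega_set_nonempty hsub
  · exact le_csInf (omega_set_nonempty.mono hsub) hlow

/-- **The exponent.** -/
theorem sol_expo {m s : ℕ} (F : Fin s → FreeAlgebra ℂ (Fin m)) (h : ¬ AffineSol F) :
    expo (κ := fun N => Fin m × Fin N × Fin N) (fun _ => {x | Sol F (mat x)}) = omega := by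
  obtain ⟨k, d, hk, hd, H⟩ := hard_case F h
  obtain ⟨C, hC⟩ := sol_upper F
  refine expo_eq'' _ (k * d) C (fun n hn => ?_) fun N => ?_
  · rw [mul_assoc]
    exact fun T L hT => H n (d * n) hn le_rfl T L hT
  · obtain ⟨T, -, -, h3⟩ := hC N
    exact ⟨_, T, h3, le_rfl⟩

end Pool.Agent.Q140.DIC
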